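import Mathlib

/-!
# The van den Berg-Kesten inequality for increasing events, uniform measure on a finite cube
-/

set_option autoImplicit false

namespace Pool.Agent.Perc

open Finset

namespace BK

variable {α : Type}

/-- Increasing families. -/
def Up (A : Set (Finset α)) : Prop := ∀ ⦃T T' : Finset α⦄, T ⊆ T' → T ∈ A → T' ∈ A

/-- Disjoint occurrence. -/
def box (A B : Set (Finset α)) : Set (Finset α) :=
  {T | ∃ K L : Finset α, K ⊆ T ∧ L ⊆ T ∧ Disjoint K L ∧ K ∈ A ∧ L ∈ B}

variable [DecidableEq α]

/-- The section at an open element. -/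
def sec (e : α) (A : Set (Finset α)) : Set (Finset α) := {T | insert e T ∈ A}

open Classical in
/-- The number of members which are subsets of `S`. -/
noncomputable def cnt (S : Finset α) (A : Set (Finset α)) : ℝ :=
  ((S.powerset.filter fun T => T ∈ A).card : ℝ)

lemma Up.sec {A : Set (Finset α)} (hA : Up A) (e : α) : Up (sec e A) :=
  fun _ _ h hT => hA (Finset.insert_subset_insert e h) hT

lemma Up.subset_sec {A : Set (Finset α)} (hA : Up A) (e : α) : A ⊆ BK.sec e A :=
  fun _ hT => hA (Finset.subset_insert e _) hT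

lemma up_box (A B : Set (Finset α)) : Up (box A B) := by
  rintro T T' h ⟨K, L, h1, h2, h3⟩
  exact ⟨K, L, h1.trans h, h2.trans h, h3⟩

lemma box_mono {A A' B B' : Set (Finset α)} (h : A ⊆ A') (h' : B ⊆ B') :
    box A B ⊆ box A' B' := by
  rintro T ⟨K, L, h1, h2, h3, h4, h5⟩
  exact ⟨K, L, h1, h2, h3, h h4, h' h5⟩

lemma cnt_mono (S : Finset α) {A B : Set (Finset α)} (h : ∀ T, T ⊆ S → T ∈ A → T ∈ B) :
    cnt S A ≤ cnt S B := by
  classical
  unfold cnt
  refine Nat.cast_le.2 (Finset.card_le_card ?_)
  intro T hT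
  rw [Finset.mem_filter, Finset.mem_powerset] at hT ⊢
  exact ⟨hT.1, h T hT.1 hT.2⟩

open Classical in
lemma cnt_eq_sum (S : Finset α) (A : Set (Finset α)) :
    cnt S A = ∑ T ∈ S.powerset, if T ∈ A then (1 : ℝ) else 0 := by
  rw [Finset.sum_ite, Finset.sum_const_zero, add_zero, Finset.sum_const, nsmul_eq_mul, mul_one]
  rfl

lemma cnt_union_add (S : Finset α) (A B : Set (Finset α)) :
    cnt S (A ∪ B) + cnt S (A ∩ B) = cnt S A + cnt S B := by
  classical
  rw [cnt_eq_sum, cnt_eq_sum, cnt_eq_sum, cnt_eq_sum, ← Finset.sum_add_distrib,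
    ← Finset.sum_add_distrib]
  refine Finset.sum_congr rfl fun T _ => ?_
  by_cases h1 : T ∈ A <;> by_cases h2 : T ∈ B <;> simp [h1, h2]

lemma cnt_insert {e : α} {S : Finset α} (he : e ∉ S) (A : Set (Finset α)) :
    cnt (insert e S) A = cnt S A + cnt S (sec e A) := by
  classical
  rw [cnt_eq_sum, cnt_eq_sum, cnt_eq_sum, Finset.sum_powerset_insert he]
  rfl

lemma cnt_le (S : Finset α) (A : Set (Finset α)) : cnt S A ≤ 2 ^ S.card := by
  classical
  unfold cnt
  have h3 := Finset.card_filter_le S.powerset (fun T => T ∈ A)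
  rw [Finset.card_powerset] at h3
  exact_mod_cast h3

lemma cnt_nonneg (S : Finset α) (A : Set (Finset α)) : 0 ≤ cnt S A := by
  unfold cnt
  positivity

/-- The van den Berg-Kesten inequality. -/
theorem bk_cnt (S : Finset α) : ∀ (A B : Set (Finset α)), Up A → Up B →
    cnt S (box A B) * 2 ^ S.card ≤ cnt S A * cnt S B := by
  classical
  induction S using Finset.induction_on with
  | empty =>
    intro A B hA hB
    have h1 : ∀ C : Set (Finset α), cnt (∅ : Finset α) C = if ∅ ∈ C then 1 else 0 := by
      intro C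
      rw [cnt_eq_sum, Finset.powerset_empty, Finset.sum_singleton]
    rw [h1, h1, h1, Finset.card_empty, pow_zero, mul_one]
    by_cases hA' : ∅ ∈ A
    · by_cases hB' : ∅ ∈ B
      · rw [if_pos hA', if_pos hB']
        split_ifs <;> norm_num
      · have : ∅ ∉ box A B := by
          rintro ⟨K, L, h2, h3, _, _, h6⟩
          rw [Finset.subset_empty] at h3
          subst h3
          exact hB' h6
        rw [if_neg this]
        split_ifs <;> norm_num
    · have : ∅ ∉ box A B := by
        rintro ⟨K, L, h2, h3, _, h5, _⟩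
        rw [Finset.subset_empty] at h2
        subst h2
        exact hA' h5
      rw [if_neg this]
      split_ifs <;> norm_num
  | @insert e S he ih =>
    intro A B hA hB
    have h00 := ih A B hA hB
    have h10 := ih (sec e A) B (hA.sec e) hB
    have h01 := ih A (sec e B) hA (hB.sec e)
    have hX : cnt S (sec e (box A B)) ≤ cnt S (box (sec e A) B ∪ box A (sec e B)) := by
      refine cnt_mono S ?_
      rintro T hT ⟨K, L, h1, h2, h3, h4, h5⟩
      by_cases hK : e ∈ K
      · left
        have hL : e ∉ L := fun h => (Finset.disjoint_left.1 h3) hK h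
        refine ⟨K.erase e, L, ?_, ?_, ?_, ?_, h5⟩
        · exact Finset.subset_insert_iff.1 h1
        · exact (Finset.subset_insert_iff_of_notMem hL).1 h2
        · exact h3.mono_left (Finset.erase_subset _ _)
        · change insert e (K.erase e) ∈ A
          rw [Finset.insert_erase hK]
          exact h4
      · right
        refine ⟨K, L.erase e, ?_, ?_, ?_, h4, ?_⟩
        · exact (Finset.subset_insert_iff_of_notMem hK).1 h1
        · exact Finset.subset_insert_iff.1 h2
        · exact h3.mono_right (Finset.erase_subset _ _)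
        · change insert e (L.erase e) ∈ B
          exact hB (Finset.insert_erase_subset e L |> fun _ => by
            intro x hx
            by_cases hxe : x = e
            · subst hxe
              exact Finset.mem_insert_self _ _
            · exact Finset.mem_insert_of_mem (Finset.mem_erase.2 ⟨hxe, hx⟩)) h5
    have hI : cnt S (box A B) ≤ cnt S (box (sec e A) B ∩ box A (sec e B)) := by
      refine cnt_mono S fun T _ hT => ⟨?_, ?_⟩
      · exact box_mono (hA.subset_sec e) (le_refl B) hT
      · exact box_mono (le_refl A) (hB.subset_sec e) hT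
    have hU := cnt_union_add S (box (sec e A) B) (box A (sec e B))
    have hAA : cnt S A ≤ cnt S (sec e A) := cnt_mono S fun T _ hT => hA.subset_sec e hT
    have hBB : cnt S B ≤ cnt S (sec e B) := cnt_mono S fun T _ hT => hB.subset_sec e hT
    have h2 : (0 : ℝ) < 2 ^ S.card := by positivity
    rw [cnt_insert he, cnt_insert he, cnt_insert he, Finset.card_insert_of_notMem he, pow_succ]
    nlinarith [mul_nonneg (sub_nonneg.2 hAA) (sub_nonneg.2 hBB)]

/-- `k`-fold disjoint occurrence. -/
def boxPow (A : Set (Finset α)) : ℕ → Set (Finset α)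
  | 0 => Set.univ
  | k + 1 => box A (boxPow A k)

lemma up_boxPow (A : Set (Finset α)) (k : ℕ) : Up (boxPow A k) := by
  cases k with
  | zero => exact fun _ _ _ _ => Set.mem_univ _
  | succ k => exact up_box _ _

lemma mem_boxPow {A : Set (Finset α)} {k : ℕ} {T : Finset α} (K : Fin k → Finset α)
    (h1 : ∀ i, K i ⊆ T) (h2 : ∀ i j, i ≠ j → Disjoint (K i) (K j)) (h3 : ∀ i, K i ∈ A) :
    T ∈ boxPow A k := by
  induction k generalizing T with
  | zero => exact Set.mem_univ _
  | succ k ih =>
    refine ⟨K 0, Finset.univ.biUnion fun i : Fin k => K i.succ, h1 0, ?_, ?_, h3 0, ?_⟩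
    · intro x hx
      obtain ⟨i, _, hi⟩ := Finset.mem_biUnion.1 hx
      exact h1 _ hi
    · rw [Finset.disjoint_biUnion_right]
      intro i _
      exact h2 _ _ (Fin.succ_ne_zero i).symm
    · refine ih (fun i => K i.succ) ?_ ?_ (fun i => h3 _)
      · intro i x hx
        exact Finset.mem_biUnion.2 ⟨i, Finset.mem_univ _, hx⟩
      · intro i j hij
        exact h2 _ _ (fun h => hij (Fin.succ_injective _ h))

theorem bk_pow (S : Finset α) {A : Set (Finset α)} (hA : Up A) (k : ℕ) :
    cnt S (boxPow A k) / 2 ^ S.card ≤ (cnt S A / 2 ^ S.card) ^ k := by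
  have h2 : (0 : ℝ) < 2 ^ S.card := by positivity
  induction k with
  | zero =>
    rw [pow_zero, div_le_one h2]
    exact cnt_le S _
  | succ k ih =>
    have h1 := bk_cnt S A (boxPow A k) hA (up_boxPow A k)
    have h0 : 0 ≤ cnt S A := cnt_nonneg S A
    rw [pow_succ]
    calc cnt S (boxPow A (k + 1)) / 2 ^ S.card
        ≤ (cnt S (boxPow A k) / 2 ^ S.card) * (cnt S A / 2 ^ S.card) := by
          change cnt S (box A (boxPow A k)) / 2 ^ S.card ≤ _
          rw [div_mul_div_comm, div_le_div_iff₀ h2 (by positivity)]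
          nlinarith
      _ ≤ _ := by
          apply mul_le_mul_of_nonneg_right ih
          positivity

end BK

end Pool.Agent.Perc
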